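import Pool.Agent.H13.DA.Fin

/-!
# Every planar oriented graph has an acyclic 4-dicolouring

The known bound is `5` (Borodin's acyclic colouring theorem). The colours are the elements of
`F_2 x F_2`. The proof is an induction on triangulated discs: the colour sums along one part of the
boundary cycle can be prescribed in one linear functional, those along the other part in another
functional, and the vertex set is cut into two parts such that the third functional of the colour
sum of every edge between the parts is its direction.
-/

set_option autoImplicit false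

namespace Pool.Agent.Results.MP_da50b6_co.PlanarFour

open Relation

/-- `v 0, v 1, ..., v (m-1)` is a directed cycle of the digraph with arc relation `D`. -/
def IsDirectedCycle {V : Type*} (D : V → V → Prop) (m : ℕ) (v : ℕ → V) : Prop :=
  3 ≤ m ∧ Set.InjOn v (Set.Iio m) ∧ (∀ t, t + 1 < m → D (v t) (v (t + 1))) ∧ D (v (m - 1)) (v 0)

/-- All vertices of the cycle have the same colour. -/
def IsMonochromatic {V : Type*} {k : ℕ} (φ : V → Fin k) (m : ℕ) (v : ℕ → V) : Prop :=
  ∀ s < m, ∀ t < m, φ (v s) = φ (v t)

/-- The cycle has even length and alternates between the colours `i` and `j`. -/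
def Alternates {V : Type*} {k : ℕ} (φ : V → Fin k) (i j : Fin k) (m : ℕ) (v : ℕ → V) : Prop :=
  Even m ∧ ∀ t < m, φ (v t) = if Even t then i else j

/-- `φ` is an acyclic `k`-dicolouring of the digraph with arc relation `D`. -/
def IsAcyclicDicolouring {V : Type*} (D : V → V → Prop) {k : ℕ} (φ : V → Fin k) : Prop :=
  (∀ m v, IsDirectedCycle D m v → ¬ IsMonochromatic φ m v) ∧
  (∀ m v (i j : Fin k), i ≠ j → IsDirectedCycle D m v → ¬ Alternates φ i j m v)

/-- A rotation system of `G`: a permutation `next` of the darts (oriented edges) which, at every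
vertex, permutes the darts leaving that vertex cyclically. -/
structure RotationSystem {V : Type*} (G : SimpleGraph V) where
  /-- the dart following a given one in the rotation at its first vertex -/
  next : Equiv.Perm G.Dart
  /-- `next` keeps the first vertex -/
  fst_next : ∀ d, (next d).fst = d.fst
  /-- the darts leaving a vertex form one cycle of `next` -/
  cyclic : ∀ d d' : G.Dart, d.fst = d'.fst → ∃ n : ℕ, (next ^ n) d = d'

/-- The permutation of the darts which walks along the faces: reverse the dart, then take the next
dart in the rotation. The facial walks are the cycles of this permutation. -/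
def RotationSystem.faceStep {V : Type*} {G : SimpleGraph V} (R : RotationSystem G) :
    Equiv.Perm G.Dart :=
  R.next * Function.Involutive.toPerm SimpleGraph.Dart.symm SimpleGraph.Dart.symm_involutive

/-- The number of faces: the number of facial walks, an isolated vertex having one face. -/
noncomputable def RotationSystem.numFaces {V : Type*} {G : SimpleGraph V}
    (R : RotationSystem G) : ℕ :=
  Nat.card (Quotient (Equiv.Perm.SameCycle.setoid R.faceStep)) +
    Nat.card {v : V // ∀ w, ¬ G.Adj v w}

/-- The finite graph `G` is planar: it has a rotation system satisfying Euler's formula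
`|V| - |E| + |F| = 2` in every connected component, added up over all components (the sum of the
genera is `0`; the inequality `≤` always holds). -/
def IsPlanar {V : Type*} (G : SimpleGraph V) : Prop :=
  ∃ R : RotationSystem G, (Nat.card V : ℤ) - Nat.card G.edgeSet + R.numFaces =
    2 * Nat.card G.ConnectedComponent

theorem transGen_of_cycle {V : Type*} {D : V → V → Prop} (E : V → V → Prop) {m : ℕ} {v : ℕ → V}
    (h : IsDirectedCycle D m v) (h1 : ∀ t, t + 1 < m → E (v t) (v (t + 1)))
    (h2 : E (v (m - 1)) (v 0)) : TransGen E (v 0) (v 0) := by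
  have key : ∀ t, t < m → ReflTransGen E (v 0) (v t) := by
    intro t
    induction t with
    | zero => exact fun _ => ReflTransGen.refl
    | succ t ih => exact fun ht => (ih (by omega)).tail (h1 t ht)
  have hm := h.1
  exact TransGen.tail' (key (m - 1) (by omega)) h2

open Pool.Agent.H13.DA in
theorem isPlanar_tor {V : Type*} {G : SimpleGraph V} (h : IsPlanar G) :
    Pool.Agent.H29.Tor.IsPlanar G := by
  obtain ⟨R, hR⟩ := h
  refine ⟨⟨R.next, R.fst_next, R.cyclic⟩, ?_⟩
  unfold Pool.Agent.H29.Tor.RotationSystem.GenusLE
  have e : (⟨R.next, R.fst_next, R.cyclic⟩ : Pool.Agent.H29.Tor.RotationSystem G).numFaces =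
      R.numFaces := rfl
  rw [e, hR]
  simp

open Pool.Agent.H13.DA in
/-- Every finite planar oriented graph has an acyclic `4`-dicolouring. -/
theorem result : ∀ (V : Type) [Finite V] (D : V → V → Prop), (∀ u v, D u v → ¬ D v u) →
    IsPlanar (SimpleGraph.fromRel D) → ∃ φ : V → Fin 4, IsAcyclicDicolouring D φ := by
  classical
  intro V _ D hD hP
  obtain ⟨o'', ho''⟩ := exists_ori V
  let o : V → V → ZMod 2 := fun u v => if D u v then 1 else if D v u then 0 else o'' u v
  have ho : Ori o := by
    intro x y hxy
    by_cases h1 : D x y
    · have h2 : ¬ D y x := hD _ _ h1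
      simp [o, h1, h2]
    · by_cases h2 : D y x
      · simp [o, h1, h2]
      · simp only [o, h1, h2, if_false]
        exact ho'' x y hxy
  obtain ⟨c, hc⟩ := planar_good (SimpleGraph.fromRel D) (isPlanar_tor hP) o ho
  have hcard : Fintype.card C4 = 4 := by decide
  let e : C4 ≃ Fin 4 := Fintype.equivFinOfCardEq hcard
  have hadj : ∀ u v, D u v → (SimpleGraph.fromRel D).Adj u v := by
    intro u v h
    rw [SimpleGraph.fromRel_adj]
    exact ⟨by rintro rfl; exact hD _ _ h h, Or.inl h⟩
  have ho1 : ∀ u v, D u v → o u v = 1 := by
    intro u v h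
    simp [o, h]
  refine ⟨fun v => e (c v), ?_, ?_⟩
  · intro m v hcyc hmono
    have hm := hcyc.1
    refine hc 0 (v 0) (transGen_of_cycle _ hcyc ?_ ?_)
    · intro t ht
      have h1 := hcyc.2.2.1 t ht
      refine ⟨hadj _ _ h1, ho1 _ _ h1, ?_⟩
      have h2 : c (v t) = c (v (t + 1)) := e.injective (hmono t (by omega) (t + 1) ht)
      rw [h2]
      exact c4_self _
    · have h1 := hcyc.2.2.2
      refine ⟨hadj _ _ h1, ho1 _ _ h1, ?_⟩
      have h2 : c (v (m - 1)) = c (v 0) := e.injective (hmono (m - 1) (by omega) 0 (by omega))
      rw [h2]
      exact c4_self _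
  · intro m v i j hij hcyc halt
    have hm := hcyc.1
    obtain ⟨heven, hcol⟩ := halt
    have hcol' : ∀ t < m, c (v t) = if Even t then e.symm i else e.symm j := by
      intro t ht
      have := hcol t ht
      split_ifs at this ⊢
      · rw [Equiv.eq_symm_apply]; exact this
      · rw [Equiv.eq_symm_apply]; exact this
    refine hc (e.symm i + e.symm j) (v 0) (transGen_of_cycle _ hcyc ?_ ?_)
    · intro t ht
      have h1 := hcyc.2.2.1 t ht
      refine ⟨hadj _ _ h1, ho1 _ _ h1, ?_⟩
      rw [hcol' t (by omega), hcol' (t + 1) ht]
      by_cases he : Even t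
      · have : ¬ Even (t + 1) := by rw [Nat.even_add_one]; simpa using he
        simp [he, this]
      · have : Even (t + 1) := by rw [Nat.even_add_one]; exact he
        simp [he, this, add_comm]
    · have h1 := hcyc.2.2.2
      refine ⟨hadj _ _ h1, ho1 _ _ h1, ?_⟩
      have h2 : ¬ Even (m - 1) := by
        rw [Nat.not_even_iff_odd]
        exact Nat.Even.sub_odd (by omega) heven odd_one
      rw [hcol' (m - 1) (by omega), hcol' 0 (by omega)]
      simp [h2, add_comm]

end Pool.Agent.Results.MP_da50b6_co.PlanarFour
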