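import Pool.Agent.H35.Tw3

/-!
# Acyclic 3-dicolourings of oriented graphs of treewidth at most three

Every finite oriented graph whose underlying graph has treewidth at most `3` (for example every
orientation of a planar 3-tree, also called Apollonian network or stacked triangulation, and of
any subgraph of one) has an acyclic 3-dicolouring.
-/

namespace Pool.Agent.Results.MP_da50b6_co.TreewidthThree

open Relation

/-- `v 0, v 1, ..., v (m-1)` is a directed cycle of the digraph with arc relation `D`. -/
def IsDirectedCycle {V : Type*} (D : V → V → Prop) (m : ℕ) (v : ℕ → V) : Prop :=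
  3 ≤ m ∧ Set.InjOn v (Set.Iio m) ∧ (∀ t, t + 1 < m → D (v t) (v (t + 1))) ∧ D (v (m - 1)) (v 0)

/-- All vertices of the cycle have the same colour. -/
def IsMonochromatic {V : Type*} {k : ℕ} (φ : V → Fin k) (m : ℕ) (v : ℕ → V) : Prop :=
  ∀ s < m, ∀ t < m, φ (v s) = φ (v t)

/-- The cycle has even length and alternates between the colours `i` and `j`. -/
def Alternates {V : Type*} {k : ℕ} (φ : V → Fin k) (i j : Fin k) (m : ℕ) (v : ℕ → V) : Prop :=
  Even m ∧ ∀ t < m, φ (v t) = if Even t then i else j

/-- `φ` is an acyclic `k`-dicolouring of the digraph with arc relation `D`. -/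
def IsAcyclicDicolouring {V : Type*} (D : V → V → Prop) {k : ℕ} (φ : V → Fin k) : Prop :=
  (∀ m v, IsDirectedCycle D m v → ¬ IsMonochromatic φ m v) ∧
  (∀ m v (i j : Fin k), i ≠ j → IsDirectedCycle D m v → ¬ Alternates φ i j m v)

/-- Treewidth at most `k`: the graph `G` is a subgraph of a graph `H` whose vertices can be
ordered in such a way that for each vertex the `H`-neighbours preceding it form a clique of `H`
with at most `k` elements. -/
def TreewidthLE {V : Type*} (G : SimpleGraph V) (k : ℕ) : Prop :=
  ∃ (H : SimpleGraph V) (ord : V → ℕ), G ≤ H ∧ Function.Injective ord ∧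
    ∀ v, H.IsClique {u | H.Adj u v ∧ ord u < ord v} ∧ {u | H.Adj u v ∧ ord u < ord v}.ncard ≤ k

theorem transGen_of_cycle {V : Type*} {D : V → V → Prop} (E : V → V → Prop) {m : ℕ} {v : ℕ → V}
    (h : IsDirectedCycle D m v) (h1 : ∀ t, t + 1 < m → E (v t) (v (t + 1)))
    (h2 : E (v (m - 1)) (v 0)) : TransGen E (v 0) (v 0) := by
  have key : ∀ t, t < m → ReflTransGen E (v 0) (v t) := by
    intro t
    induction t with
    | zero => exact fun _ => ReflTransGen.refl
    | succ t ih => exact fun ht => (ih (by omega)).tail (h1 t ht)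
  have hm := h.1
  exact TransGen.tail' (key (m - 1) (by omega)) h2

/-- Every finite oriented graph whose underlying graph has treewidth at most `3` has an acyclic
`3`-dicolouring. -/
theorem result : ∀ (V : Type) [Finite V] (D : V → V → Prop), (∀ u v, D u v → ¬ D v u) →
    TreewidthLE (SimpleGraph.fromRel D) 3 → ∃ φ : V → Fin 3, IsAcyclicDicolouring D φ := by
  intro V _ D hD hT
  obtain ⟨H, ord, hGH, hinj, hv⟩ := hT
  have hDH : ∀ u v, D u v → H.Adj u v := by
    intro u v h
    apply hGH
    rw [SimpleGraph.fromRel_adj]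
    exact ⟨by rintro rfl; exact hD _ _ h h, Or.inl h⟩
  obtain ⟨φ, hφ1, hφ2⟩ := Pool.Agent.H35.Tw3.tw3 D hD H hDH ord hinj
    (fun v u w h1 h2 h3 h4 h5 => (hv v).1 (show u ∈ _ from ⟨h1, h3⟩) (show w ∈ _ from ⟨h2, h4⟩) h5)
    (fun v => (hv v).2)
  refine ⟨φ, ?_, ?_⟩
  · intro m v hc hmono
    have hm := hc.1
    apply hφ1 (v 0)
    apply transGen_of_cycle _ hc
    · intro t ht
      exact ⟨hc.2.2.1 t ht, hmono t (by omega) (t + 1) ht⟩
    · exact ⟨hc.2.2.2, hmono (m - 1) (by omega) 0 (by omega)⟩
  · intro m v i j hij hc halt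
    have hm := hc.1
    obtain ⟨heven, hcol⟩ := halt
    apply hφ2 i j hij (v 0)
    apply transGen_of_cycle _ hc
    · intro t ht
      refine ⟨hc.2.2.1 t ht, ?_⟩
      rw [hcol t (by omega), hcol (t + 1) ht]
      by_cases he : Even t
      · left
        have : ¬ Even (t + 1) := by rw [Nat.even_add_one]; simpa using he
        simp [he, this]
      · right
        have : Even (t + 1) := by rw [Nat.even_add_one]; exact he
        simp [he, this]
    · refine ⟨hc.2.2.2, ?_⟩
      right
      have h1 : ¬ Even (m - 1) := by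
        rw [Nat.not_even_iff_odd]
        exact Nat.Even.sub_odd (by omega) heven odd_one
      rw [hcol (m - 1) (by omega), hcol 0 (by omega)]
      simp [h1]

end Pool.Agent.Results.MP_da50b6_co.TreewidthThree
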