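import Pool.Agent.H17.TF.Main

/-!
# Triangle-free planar oriented graphs: two colours

Let `G` be planar such that every vertex set `S` containing a triangle spans at most `2 |S| - 3` edges
(nothing is asked if `G` is triangle-free). Then every orientation of `G` can be made acyclic by
reversing all arcs between some set and its complement; so this set and its complement are the
colour classes of an acyclic `2`-dicolouring. More generally it is enough that this holds outside a
set `X`, if `X` contains no directed cycle and no directed cycle passes alternately through `X` and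
its complement; then three colours suffice, and `X` is one of the classes.

Proof: a set of at least three vertices with exactly `2 |S| - 3` edges is called tight. There is an
edge `uv` such that all tight sets containing `u` and `v` contain one and the same common neighbour
`w` (by the submodularity of `2 |S| - 3 - e(S)` and Euler's bound for triangle-free planar graphs).
Reverse the arcs at `v` if necessary, so that `w` is related to `u` and `v` in the same way, contract
`uv` and use induction.
-/

set_option autoImplicit false

namespace Pool.Agent.Results.MP_da50b6_co.TriangleFree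

/-- `v 0, v 1, ..., v (m-1)` is a directed cycle of the digraph with arc relation `D`. -/
def IsDirectedCycle {V : Type*} (D : V → V → Prop) (m : ℕ) (v : ℕ → V) : Prop :=
  3 ≤ m ∧ Set.InjOn v (Set.Iio m) ∧ (∀ t, t + 1 < m → D (v t) (v (t + 1))) ∧ D (v (m - 1)) (v 0)

/-- All vertices of the cycle have the same colour. -/
def IsMonochromatic {V : Type*} {k : ℕ} (φ : V → Fin k) (m : ℕ) (v : ℕ → V) : Prop :=
  ∀ s < m, ∀ t < m, φ (v s) = φ (v t)

/-- The cycle has even length and alternates between the colours `i` and `j`. -/
def Alternates {V : Type*} {k : ℕ} (φ : V → Fin k) (i j : Fin k) (m : ℕ) (v : ℕ → V) : Prop :=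
  Even m ∧ ∀ t < m, φ (v t) = if Even t then i else j

/-- `φ` is an acyclic `k`-dicolouring of the digraph with arc relation `D`. -/
def IsAcyclicDicolouring {V : Type*} (D : V → V → Prop) {k : ℕ} (φ : V → Fin k) : Prop :=
  (∀ m v, IsDirectedCycle D m v → ¬ IsMonochromatic φ m v) ∧
  (∀ m v (i j : Fin k), i ≠ j → IsDirectedCycle D m v → ¬ Alternates φ i j m v)

/-- A rotation system of `G`: a permutation `next` of the darts (oriented edges) which, at every
vertex, permutes the darts leaving that vertex cyclically. -/
structure RotationSystem {V : Type*} (G : SimpleGraph V) where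
  /-- the dart following a given one in the rotation at its first vertex -/
  next : Equiv.Perm G.Dart
  /-- `next` keeps the first vertex -/
  fst_next : ∀ d, (next d).fst = d.fst
  /-- the darts leaving a vertex form one cycle of `next` -/
  cyclic : ∀ d d' : G.Dart, d.fst = d'.fst → ∃ n : ℕ, (next ^ n) d = d'

/-- The permutation of the darts which walks along the faces: reverse the dart, then take the next
dart in the rotation. The facial walks are the cycles of this permutation. -/
def RotationSystem.faceStep {V : Type*} {G : SimpleGraph V} (R : RotationSystem G) :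
    Equiv.Perm G.Dart :=
  R.next * Function.Involutive.toPerm SimpleGraph.Dart.symm SimpleGraph.Dart.symm_involutive

/-- The number of faces: the number of facial walks, an isolated vertex having one face. -/
noncomputable def RotationSystem.numFaces {V : Type*} {G : SimpleGraph V}
    (R : RotationSystem G) : ℕ :=
  Nat.card (Quotient (Equiv.Perm.SameCycle.setoid R.faceStep)) +
    Nat.card {v : V // ∀ w, ¬ G.Adj v w}

/-- The finite graph `G` is planar: it has a rotation system satisfying Euler's formula
`|V| - |E| + |F| = 2` in every connected component, added up over all components (the sum of the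
genera is `0`; the inequality `≤` always holds). -/
def IsPlanar {V : Type*} (G : SimpleGraph V) : Prop :=
  ∃ R : RotationSystem G, (Nat.card V : ℤ) - Nat.card G.edgeSet + R.numFaces =
    2 * Nat.card G.ConnectedComponent

theorem isPlanar_tor {V : Type*} {G : SimpleGraph V} (h : IsPlanar G) :
    Pool.Agent.H29.Tor.IsPlanar G := by
  obtain ⟨R, hR⟩ := h
  refine ⟨⟨R.next, R.fst_next, R.cyclic⟩, ?_⟩
  unfold Pool.Agent.H29.Tor.RotationSystem.GenusLE
  have e : (⟨R.next, R.fst_next, R.cyclic⟩ : Pool.Agent.H29.Tor.RotationSystem G).numFaces =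
      R.numFaces := rfl
  rw [e, hR]
  simp

theorem no_cycle_up {V : Type*} {D : V → V → Prop} (r : V → ℕ) {m : ℕ} {v : ℕ → V}
    (h : IsDirectedCycle D m v) (h1 : ∀ t, t + 1 < m → r (v t) < r (v (t + 1)))
    (h2 : r (v (m - 1)) < r (v 0)) : False := by
  have key : ∀ t, t < m → r (v 0) ≤ r (v t) := by
    intro t
    induction t with
    | zero => exact fun _ => le_rfl
    | succ t ih => exact fun ht => (ih (by omega)).trans (h1 t ht).le
  have hm := h.1
  have := key (m - 1) (by omega)
  omega

theorem no_cycle_down {V : Type*} {D : V → V → Prop} (r : V → ℕ) {m : ℕ} {v : ℕ → V}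
    (h : IsDirectedCycle D m v) (h1 : ∀ t, t + 1 < m → r (v (t + 1)) < r (v t))
    (h2 : r (v 0) < r (v (m - 1))) : False := by
  have key : ∀ t, t < m → r (v t) ≤ r (v 0) := by
    intro t
    induction t with
    | zero => exact fun _ => le_rfl
    | succ t ih => exact fun ht => (h1 t ht).le.trans (ih (by omega))
  have hm := h.1
  have := key (m - 1) (by omega)
  omega

theorem zmod_cases (x : ZMod 2) : x = 0 ∨ x = 1 := by
  revert x
  decide

open Pool.Agent.H17.TF Pool.Agent.H13.DA in
/-- Let `D` be an oriented planar graph and `X` a set of vertices such that no directed cycle lies in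
`X` and no directed cycle of even length passes alternately through `X` and its complement. If
every vertex set `S` outside `X` which contains a triangle spans at most `2 |S| - 3` arcs, then `D`
has an acyclic `3`-dicolouring in which `X` is the class of the colour `2`. -/
theorem result : ∀ (V : Type) [Finite V] (D : V → V → Prop), (∀ u v, D u v → ¬ D v u) →
    IsPlanar (SimpleGraph.fromRel D) → ∀ X : Set V,
    (∀ m v, IsDirectedCycle D m v → ¬ ∀ t < m, v t ∈ X) →
    (∀ m v, IsDirectedCycle D m v → Even m → ¬ ∀ t, t + 1 < m → (v t ∈ X ↔ v (t + 1) ∉ X)) →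
    (∀ S : Finset V, (∀ s ∈ S, s ∉ X) →
      (∃ a ∈ S, ∃ b ∈ S, ∃ c ∈ S, (SimpleGraph.fromRel D).Adj a b ∧
        (SimpleGraph.fromRel D).Adj b c ∧ (SimpleGraph.fromRel D).Adj a c) →
      {p : V × V | p.1 ∈ S ∧ p.2 ∈ S ∧ D p.1 p.2}.ncard + 3 ≤ 2 * S.card) →
    ∃ φ : V → Fin 3, IsAcyclicDicolouring D φ ∧ ∀ v, φ v = 2 ↔ v ∈ X := by
  classical
  intro V _ D hD hP X hX1 hX2 hS
  have : Fintype V := Fintype.ofFinite V
  obtain ⟨o'', ho''⟩ := exists_ori V
  let o : V → V → ZMod 2 := fun u v => if D u v then 1 else if D v u then 0 else o'' u v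
  have ho : Ori o := by
    intro x y hxy
    by_cases h1 : D x y
    · have h2 : ¬ D y x := hD _ _ h1
      simp [o, h1, h2]
    · by_cases h2 : D y x
      · simp [o, h1, h2]
      · simp only [o, h1, h2, if_false]
        exact ho'' x y hxy
  have ho1 : ∀ u v, D u v → o u v = 1 := by
    intro u v h
    simp [o, h]
  have ho0 : ∀ u v, D u v → o v u = 0 := by
    intro u v h
    simp [o, h, hD u v h]
  have hadj : ∀ u v, D u v → (SimpleGraph.fromRel D).Adj u v := by
    intro u v h
    rw [SimpleGraph.fromRel_adj]
    exact ⟨by rintro rfl; exact hD _ _ h h, Or.inl h⟩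
  set G := SimpleGraph.fromRel D with hG
  let A : Finset V := Finset.univ.filter (fun x => x ∉ X)
  have hA : ∀ x, x ∈ A ↔ x ∉ X := by
    intro x
    simp [A]
  have hmac : Mac G A := planar_mac G (isPlanar_tor hP) A
  have hsparse : SparseOn G A := by
    intro S hSA h2
    by_cases h3 : 3 ≤ S.card
    · by_cases htri : ∃ a ∈ S, ∃ b ∈ S, ∃ c ∈ S, G.Adj a b ∧ G.Adj b c ∧ G.Adj a c
      · have h4 := hS S (fun s hs => (hA s).1 (hSA hs)) htri
        have h5 : (ed G S).card ≤ {p : V × V | p.1 ∈ S ∧ p.2 ∈ S ∧ D p.1 p.2}.ncard := by
          have hfin : {p : V × V | p.1 ∈ S ∧ p.2 ∈ S ∧ D p.1 p.2}.Finite := Set.toFinite _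
          rw [Set.ncard_eq_toFinset_card _ hfin]
          refine (Finset.card_le_card ?_).trans
            (Finset.card_image_le (f := fun p : V × V => s(p.1, p.2)))
          intro e
          induction e using Sym2.ind with
          | _ x y =>
            intro he
            rw [mem_ed] at he
            rw [Finset.mem_image]
            have h6 := he.1
            rw [hG, SimpleGraph.fromRel_adj] at h6
            rcases h6.2 with h7 | h7
            · exact ⟨(x, y), by simp [he.2.1, he.2.2, h7], rfl⟩
            · exact ⟨(y, x), by simp [he.2.1, he.2.2, h7], Sym2.eq_swap⟩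
        omega
      · have h4 := mac_tri G A hmac S hSA h3 (fun a ha b hb c hc h5 h6 h7 =>
          htri ⟨a, ha, b, hb, c, hc, h5, h6, h7⟩)
        omega
    · have h4 : S.card = 2 := by omega
      obtain ⟨a, b, hab, rfl⟩ := Finset.card_eq_two.1 h4
      have h5 : ed G {a, b} ⊆ {s(a, b)} := by
        intro e
        induction e using Sym2.ind with
        | _ x y =>
          intro he
          rw [mem_ed] at he
          obtain ⟨h6, h7, h8⟩ := he
          rw [Finset.mem_insert, Finset.mem_singleton] at h7 h8
          rw [Finset.mem_singleton]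
          rcases h7 with rfl | rfl
          · rcases h8 with rfl | rfl
            · exact absurd rfl h6.ne
            · rfl
          · rcases h8 with rfl | rfl
            · exact Sym2.eq_swap
            · exact absurd rfl h6.ne
      have h6 := Finset.card_le_card h5
      rw [Finset.card_singleton] at h6
      omega
  obtain ⟨Y, r, hr⟩ := acyclic_cut A.card G A le_rfl hsparse hmac o ho
  let φ : V → Fin 3 := fun v => if v ∈ X then 2 else if Y v = 0 then 0 else 1
  have hφ2 : ∀ v, φ v = 2 ↔ v ∈ X := by
    intro v
    by_cases h1 : v ∈ X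
    · simp [φ, h1]
    · by_cases h2 : Y v = 0
      · simp [φ, h1, h2]
      · simp [φ, h1, h2]
  have hsame : ∀ u v, D u v → φ u = φ v → φ u ≠ 2 → r u < r v := by
    intro u v huv h1 h2
    have hu : u ∉ X := fun h => h2 ((hφ2 u).2 h)
    have hv : v ∉ X := fun h => h2 (h1.trans ((hφ2 v).2 h))
    refine hr u ((hA u).2 hu) v ((hA v).2 hv) (hadj u v huv) ?_
    have h3 : Y u = Y v := by
      simp only [φ, hu, hv, if_false] at h1
      rcases zmod_cases (Y u) with h4 | h4 <;> rcases zmod_cases (Y v) with h5 | h5
      · rw [h4, h5]
      · rw [h4, h5] at h1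
        simp at h1
      · rw [h4, h5] at h1
        simp at h1
      · rw [h4, h5]
    rw [ho1 u v huv, h3, add_assoc, CharTwo.add_self_eq_zero, add_zero]
  have hdiff : ∀ u v, D u v → φ u ≠ φ v → φ u ≠ 2 → φ v ≠ 2 → r v < r u := by
    intro u v huv h1 h2 h3
    have hu : u ∉ X := fun h => h2 ((hφ2 u).2 h)
    have hv : v ∉ X := fun h => h3 ((hφ2 v).2 h)
    refine hr v ((hA v).2 hv) u ((hA u).2 hu) (hadj u v huv).symm ?_
    rw [ho0 u v huv]
    simp only [φ, hu, hv, if_false] at h1
    rcases zmod_cases (Y u) with h4 | h4 <;> rcases zmod_cases (Y v) with h5 | h5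
    · rw [h4, h5] at h1
      simp at h1
    · rw [h4, h5]
      rfl
    · rw [h4, h5]
      rfl
    · rw [h4, h5] at h1
      simp at h1
  refine ⟨φ, ⟨?_, ?_⟩, hφ2⟩
  · intro m v hcyc hmono
    have hm := hcyc.1
    by_cases h2 : φ (v 0) = 2
    · refine hX1 m v hcyc fun t ht => (hφ2 _).1 ?_
      rw [hmono t ht 0 (by omega), h2]
    · refine no_cycle_up r hcyc ?_ ?_
      · intro t ht
        refine hsame _ _ (hcyc.2.2.1 t ht) (hmono t (by omega) (t + 1) ht) ?_
        rw [hmono t (by omega) 0 (by omega)]
        exact h2
      · refine hsame _ _ hcyc.2.2.2 (hmono (m - 1) (by omega) 0 (by omega)) ?_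
        rw [hmono (m - 1) (by omega) 0 (by omega)]
        exact h2
  · intro m v i j hij hcyc halt
    have hm := hcyc.1
    obtain ⟨heven, hcol⟩ := halt
    have hodd : ¬ Even (m - 1) := by
      rw [Nat.not_even_iff_odd]
      exact Nat.Even.sub_odd (by omega) heven odd_one
    have hstep : ∀ t, t + 1 < m → φ (v t) = (if Even t then i else j) ∧
        φ (v (t + 1)) = (if Even t then j else i) := by
      intro t ht
      refine ⟨hcol t (by omega), ?_⟩
      rw [hcol (t + 1) ht]
      by_cases he : Even t
      · have h1 : ¬ Even (t + 1) := by rw [Nat.even_add_one]; simpa using he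
        rw [if_neg h1, if_pos he]
      · have h1 : Even (t + 1) := by rw [Nat.even_add_one]; exact he
        rw [if_pos h1, if_neg he]
    have hlast : φ (v (m - 1)) = j := by
      rw [hcol (m - 1) (by omega), if_neg hodd]
    have hfirst : φ (v 0) = i := by
      rw [hcol 0 (by omega), if_pos (by decide)]
    by_cases hi : i = 2
    · refine hX2 m v hcyc heven fun t ht => ?_
      obtain ⟨h1, h2⟩ := hstep t ht
      rw [← hφ2, ← hφ2, h1, h2]
      have hj : j ≠ 2 := fun h => hij (hi.trans h.symm)
      by_cases he : Even t
      · simp [he, hi, hj]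
      · simp [he, hi, hj]
    by_cases hj : j = 2
    · refine hX2 m v hcyc heven fun t ht => ?_
      obtain ⟨h1, h2⟩ := hstep t ht
      rw [← hφ2, ← hφ2, h1, h2]
      by_cases he : Even t
      · simp [he, hi, hj]
      · simp [he, hi, hj]
    refine no_cycle_down r hcyc ?_ ?_
    · intro t ht
      obtain ⟨h1, h2⟩ := hstep t ht
      refine hdiff _ _ (hcyc.2.2.1 t ht) ?_ ?_ ?_
      · rw [h1, h2]
        by_cases he : Even t
        · simp [he, hij]
        · simp [he, Ne.symm hij]
      · rw [h1]
        by_cases he : Even t
        · simp [he, hi]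
        · simp [he, hj]
      · rw [h2]
        by_cases he : Even t
        · simp [he, hj]
        · simp [he, hi]
    · refine hdiff _ _ hcyc.2.2.2 ?_ ?_ ?_
      · rw [hlast, hfirst]
        exact Ne.symm hij
      · rw [hlast]
        exact hj
      · rw [hfirst]
        exact hi

end Pool.Agent.Results.MP_da50b6_co.TriangleFree
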