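import Mathlib

/-!
# Two-degenerate graphs: two colours; a sparse acyclic set besides: three colours

Every orientation of a finite `2`-degenerate graph has an acyclic dicolouring with two colours
(`X = ∅` below). More generally, if `X` is a set of vertices which contains no directed cycle,
every vertex outside `X` has at most one neighbour in `X`, and the graph without `X` is
`2`-degenerate, then there is an acyclic `3`-dicolouring in which `X` is one of the colour
classes.

The two colours of the vertices outside `X` are signs, and there is one linear order such that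
every arc between vertices of the same sign goes up and every arc between vertices of different
signs goes down. A new vertex with at most two earlier neighbours can always be inserted: if the
neighbours ask for the same side, put it at the corresponding end, otherwise put it between its two
neighbours, with the sign which fits the order of the two neighbours.
-/

set_option autoImplicit false

namespace Pool.Agent.Results.MP_da50b6_co.TwoDegenerate

/-- `v 0, v 1, ..., v (m-1)` is a directed cycle of the digraph with arc relation `D`. -/
def IsDirectedCycle {V : Type*} (D : V → V → Prop) (m : ℕ) (v : ℕ → V) : Prop :=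
  3 ≤ m ∧ Set.InjOn v (Set.Iio m) ∧ (∀ t, t + 1 < m → D (v t) (v (t + 1))) ∧ D (v (m - 1)) (v 0)

/-- All vertices of the cycle have the same colour. -/
def IsMonochromatic {V : Type*} {k : ℕ} (φ : V → Fin k) (m : ℕ) (v : ℕ → V) : Prop :=
  ∀ s < m, ∀ t < m, φ (v s) = φ (v t)

/-- The cycle has even length and alternates between the colours `i` and `j`. -/
def Alternates {V : Type*} {k : ℕ} (φ : V → Fin k) (i j : Fin k) (m : ℕ) (v : ℕ → V) : Prop :=
  Even m ∧ ∀ t < m, φ (v t) = if Even t then i else j

/-- `φ` is an acyclic `k`-dicolouring of the digraph with arc relation `D`. -/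
def IsAcyclicDicolouring {V : Type*} (D : V → V → Prop) {k : ℕ} (φ : V → Fin k) : Prop :=
  (∀ m v, IsDirectedCycle D m v → ¬ IsMonochromatic φ m v) ∧
  (∀ m v (i j : Fin k), i ≠ j → IsDirectedCycle D m v → ¬ Alternates φ i j m v)

/-- `u` and `v` are neighbours. -/
def Nbr {V : Type*} (D : V → V → Prop) (u v : V) : Prop := D u v ∨ D v u

/-- Every nonempty finite set of vertices outside `X` contains a vertex with at most two
neighbours in that set: the underlying graph without `X` is `2`-degenerate. -/
def TwoDegenerateOff {V : Type*} (D : V → V → Prop) (X : Set V) : Prop :=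
  ∀ T : Finset V, T.Nonempty → (∀ t ∈ T, t ∉ X) →
    ∃ v ∈ T, ∃ a b : V, ∀ u ∈ T, Nbr D v u → u = a ∨ u = b

/-- sign and order of a pair -/
def OK {V : Type*} (D : V → V → Prop) (c : V → Bool) (r : V → ℚ) (u w : V) : Prop :=
  D u w → (c u = c w → r u < r w) ∧ (c u ≠ c w → r w < r u)

theorem exists_between_avoid (a b : ℚ) (h : a < b) (F : Set ℚ) (hF : F.Finite) :
    ∃ x, a < x ∧ x < b ∧ x ∉ F := by
  have h1 : (Set.Ioo a b).Infinite := Set.Ioo_infinite h
  obtain ⟨x, hx, hx'⟩ := h1.exists_notMem_finite hF
  exact ⟨x, hx.1, hx.2, hx'⟩

/-- insertion of a vertex: `A u` says that the new vertex with sign `true` must lie above `u` -/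
theorem insert_vertex {V : Type*} (r : V → ℚ) (S : Finset V)
    (hr : Set.InjOn r (S : Set V)) (A : V → Prop) (a b : V) :
    ∃ (s : Bool) (q : ℚ), (∀ u ∈ S, q ≠ r u) ∧
      ∀ u ∈ S, (u = a ∨ u = b) → if s = true then (A u → r u < q) ∧ (¬ A u → q < r u)
        else (A u → q < r u) ∧ (¬ A u → r u < q) := by
  classical
  have hF : (r '' (S : Set V)).Finite := S.finite_toSet.image r
  obtain ⟨M, hM⟩ : ∃ M : ℚ, ∀ u ∈ S, r u < M := by
    obtain ⟨M, hM⟩ := hF.bddAbove
    exact ⟨M + 1, fun u hu => by
      have := hM (Set.mem_image_of_mem r (by simpa using hu : u ∈ (S : Set V)))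
      linarith⟩
  obtain ⟨N, hN⟩ : ∃ N : ℚ, ∀ u ∈ S, N < r u := by
    obtain ⟨M, hM⟩ := hF.bddBelow
    exact ⟨M - 1, fun u hu => by
      have := hM (Set.mem_image_of_mem r (by simpa using hu : u ∈ (S : Set V)))
      linarith⟩
  -- both ask for above
  by_cases h1 : ∀ u ∈ S, (u = a ∨ u = b) → A u
  · refine ⟨true, M, fun u hu => (hM u hu).ne', fun u hu hab => ?_⟩
    simp only [if_true]
    exact ⟨fun _ => hM u hu, fun h => absurd (h1 u hu hab) h⟩
  by_cases h2 : ∀ u ∈ S, (u = a ∨ u = b) → ¬ A u
  · refine ⟨true, N, fun u hu => (hN u hu).ne, fun u hu hab => ?_⟩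
    simp only [if_true]
    exact ⟨fun h => absurd h (h2 u hu hab), fun _ => hN u hu⟩
  push Not at h1 h2
  obtain ⟨x, hx, hxab, hxA⟩ := h1
  obtain ⟨y, hy, hyab, hyA⟩ := h2
  have hxy : x ≠ y := by
    rintro rfl
    exact hxA hyA
  have hall : ∀ u ∈ S, (u = a ∨ u = b) → u = x ∨ u = y := by
    intro u _ hu
    rcases hxab with rfl | rfl <;> rcases hyab with rfl | rfl
    · exact absurd rfl hxy
    · exact hu
    · exact hu.symm
    · exact absurd rfl hxy
  have hne : r x ≠ r y := fun h => hxy (hr (by simpa using hx) (by simpa using hy) h)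
  rcases lt_or_gt_of_ne hne with h | h
  · -- `r x < r y`: sign `false`
    obtain ⟨q, hq1, hq2, hq3⟩ := exists_between_avoid _ _ h _ hF
    refine ⟨false, q, fun u hu he => hq3 ⟨u, by simpa using hu, he.symm⟩, fun u hu hab => ?_⟩
    simp only [Bool.false_eq_true, if_false]
    rcases hall u hu hab with rfl | rfl
    · exact ⟨fun h => absurd h hxA, fun _ => hq1⟩
    · exact ⟨fun _ => hq2, fun h => absurd hyA h⟩
  · obtain ⟨q, hq1, hq2, hq3⟩ := exists_between_avoid _ _ h _ hF
    refine ⟨true, q, fun u hu he => hq3 ⟨u, by simpa using hu, he.symm⟩, fun u hu hab => ?_⟩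
    simp only [if_true]
    rcases hall u hu hab with rfl | rfl
    · exact ⟨fun h => absurd h hxA, fun _ => hq2⟩
    · exact ⟨fun _ => hq1, fun h => absurd hyA h⟩

/-- signs and one linear order for a `2`-degenerate graph -/
theorem exists_order {V : Type*} (D : V → V → Prop) (hD : ∀ u v, D u v → ¬ D v u) (X : Set V)
    (hX : TwoDegenerateOff D X) : ∀ (n : ℕ) (S : Finset V), S.card = n → (∀ t ∈ S, t ∉ X) →
      ∃ (c : V → Bool) (r : V → ℚ), Set.InjOn r (S : Set V) ∧
        ∀ u ∈ S, ∀ w ∈ S, OK D c r u w := by
  classical
  intro n
  induction n with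
  | zero =>
    intro S hS _
    rw [Finset.card_eq_zero] at hS
    subst hS
    exact ⟨fun _ => true, fun _ => 0, by simp, by simp⟩
  | succ n ih =>
    intro S hS hSX
    have hne : S.Nonempty := by
      rw [← Finset.card_pos]; omega
    obtain ⟨v, hv, a, b, hab⟩ := hX S hne hSX
    obtain ⟨c, r, hr, hOK⟩ := ih (S.erase v) (by rw [Finset.card_erase_of_mem hv, hS]; rfl)
      (fun t ht => hSX t (Finset.mem_of_mem_erase ht))
    -- `A u`: with sign `true` the vertex `v` must lie above `u`
    let A : V → Prop := fun u => (D u v ∧ c u = true) ∨ (D v u ∧ c u = false)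
    obtain ⟨s, q, hq, hsq⟩ := insert_vertex r (S.erase v) hr A a b
    refine ⟨Function.update c v s, Function.update r v q, ?_, ?_⟩
    · intro u hu w hw huw
      have hu' : u ∈ S := by simpa using hu
      have hw' : w ∈ S := by simpa using hw
      by_cases h1 : u = v
      · by_cases h2 : w = v
        · rw [h1, h2]
        · subst h1
          rw [Function.update_self, Function.update_of_ne h2] at huw
          exact absurd huw (hq w (Finset.mem_erase.2 ⟨h2, hw'⟩))
      · by_cases h2 : w = v
        · subst h2
          rw [Function.update_self, Function.update_of_ne h1] at huw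
          exact absurd huw.symm (hq u (Finset.mem_erase.2 ⟨h1, hu'⟩))
        · rw [Function.update_of_ne h1, Function.update_of_ne h2] at huw
          exact hr (by simpa using And.intro hu' h1) (by simpa using And.intro hw' h2) huw
    · intro u hu w hw huw
      by_cases h1 : u = v
      · subst h1
        have h2 : w ≠ u := by
          rintro rfl
          exact hD _ _ huw huw
        have hw' : w ∈ S.erase u := Finset.mem_erase.2 ⟨h2, hw⟩
        have hA := hsq w hw' (hab w hw (Or.inl huw))
        rw [Function.update_self, Function.update_self, Function.update_of_ne h2,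
          Function.update_of_ne h2]
        have hn : ¬ D w u := hD _ _ huw
        have hAw : A w ↔ c w = false := by simp [A, hn, huw]
        cases s <;> cases hc : c w <;> simp_all
      · by_cases h2 : w = v
        · subst h2
          have hu' : u ∈ S.erase w := Finset.mem_erase.2 ⟨h1, hu⟩
          have hA := hsq u hu' (hab u hu (Or.inr huw))
          rw [Function.update_self, Function.update_self, Function.update_of_ne h1,
            Function.update_of_ne h1]
          have hn : ¬ D w u := hD _ _ huw
          have hAu : A u ↔ c u = true := by simp [A, hn, huw]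
          cases s <;> cases hc : c u <;> simp_all
        · rw [Function.update_of_ne h1, Function.update_of_ne h2, Function.update_of_ne h1,
            Function.update_of_ne h2]
          exact hOK u (Finset.mem_erase.2 ⟨h1, hu⟩) w (Finset.mem_erase.2 ⟨h2, hw⟩) huw

/-- a function cannot increase all around a directed cycle -/
theorem no_increasing {m : ℕ} (hm : 3 ≤ m) (f : ℕ → ℚ) (h1 : ∀ t, t + 1 < m → f t < f (t + 1))
    (h2 : f (m - 1) < f 0) : False := by
  have key : ∀ t, t < m → f 0 ≤ f t := by
    intro t
    induction t with
    | zero => exact fun _ => le_rfl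
    | succ t ih => exact fun ht => (ih (by omega)).trans (h1 t ht).le
  exact absurd (key (m - 1) (by omega)) (not_le.2 h2)

/-- Let `D` be a finite oriented graph and `X` a set of vertices such that `X` contains no directed
cycle, every vertex outside `X` has at most one neighbour in `X`, and the underlying graph without
`X` is `2`-degenerate. Then `D` has an acyclic `3`-dicolouring in which `X` is exactly the third
colour class; if `X` is empty (so the graph is `2`-degenerate) only two colours are used. -/
theorem result : ∀ (V : Type) [Finite V] (D : V → V → Prop) (X : Set V),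
    (∀ u v, D u v → ¬ D v u) →
    (∀ m v, IsDirectedCycle D m v → ∃ t < m, v t ∉ X) →
    (∀ y, y ∉ X → ∀ x ∈ X, ∀ x' ∈ X, Nbr D y x → Nbr D y x' → x = x') →
    TwoDegenerateOff D X →
    ∃ φ : V → Fin 3, IsAcyclicDicolouring D φ ∧ ∀ v, φ v = 2 ↔ v ∈ X := by
  classical
  intro V _ D X hD hacyc hone hdeg
  have := Fintype.ofFinite V
  obtain ⟨c, r, -, hOK⟩ := exists_order D hD X hdeg _ (Finset.univ.filter (fun v => v ∉ X)) rfl
    (by simp)
  have hOK' : ∀ u w, u ∉ X → w ∉ X → OK D c r u w := fun u w hu hw =>
    hOK u (by simpa using hu) w (by simpa using hw)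
  -- cycles outside `X`
  have hmono : ∀ m v, IsDirectedCycle D m v → (∀ t < m, v t ∉ X) →
      ¬ ∀ s < m, ∀ t < m, c (v s) = c (v t) := by
    intro m v hcyc hX h
    obtain ⟨hm, -, h1, h2⟩ := hcyc
    refine no_increasing hm (fun t => r (v t)) ?_ ?_
    · intro t ht
      exact (hOK' _ _ (hX t (by omega)) (hX _ ht) (h1 t ht)).1 (h t (by omega) (t + 1) ht)
    · exact (hOK' _ _ (hX _ (by omega)) (hX 0 (by omega)) h2).1 (h _ (by omega) 0 (by omega))
  have halt : ∀ m v (p q : Bool), IsDirectedCycle D m v → (∀ t < m, v t ∉ X) → p ≠ q → Even m →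
      ¬ ∀ t < m, c (v t) = if Even t then p else q := by
    intro m v p q hcyc hX hpq hev h
    obtain ⟨hm, -, h1, h2⟩ := hcyc
    refine no_increasing hm (fun t => - r (v t)) ?_ ?_
    · intro t ht
      have hne : c (v t) ≠ c (v (t + 1)) := by
        rw [h t (by omega), h (t + 1) ht]
        by_cases he : Even t
        · have : ¬ Even (t + 1) := by rw [Nat.even_add_one]; simpa using he
          simpa [he, this] using hpq
        · have : Even (t + 1) := by rw [Nat.even_add_one]; exact he
          simpa [he, this] using hpq.symm
      have := (hOK' _ _ (hX t (by omega)) (hX _ ht) (h1 t ht)).2 hne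
      simpa using this
    · have hodd : ¬ Even (m - 1) := by
        rw [Nat.not_even_iff_odd]
        exact Nat.Even.sub_odd (by omega) hev odd_one
      have hne : c (v (m - 1)) ≠ c (v 0) := by
        rw [h (m - 1) (by omega), h 0 (by omega)]
        simpa [hodd] using hpq.symm
      have := (hOK' _ _ (hX _ (by omega)) (hX 0 (by omega)) h2).2 hne
      simpa using this
  let φ : V → Fin 3 := fun v => if v ∈ X then 2 else if c v = true then 1 else 0
  have hφ2 : ∀ v, φ v = 2 ↔ v ∈ X := by
    intro v
    by_cases h : v ∈ X
    · simp [φ, h]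
    · by_cases h' : c v = true
      · simp [φ, h, h']
      · simp [φ, h, h']
  have hφc : ∀ u w, u ∉ X → w ∉ X → (φ u = φ w ↔ c u = c w) := by
    intro u w hu hw
    cases h1 : c u <;> cases h2 : c w <;> simp [φ, hu, hw, h1, h2]
  refine ⟨φ, ⟨?_, ?_⟩, hφ2⟩
  · intro m v hcyc hm
    have hm3 := hcyc.1
    obtain ⟨t, ht, htX⟩ := hacyc m v hcyc
    have hX : ∀ s < m, v s ∉ X := by
      intro s hs h
      rw [← hφ2, hm s hs t ht, hφ2] at h
      exact htX h
    exact hmono m v hcyc hX fun s hs t ht => (hφc _ _ (hX s hs) (hX t ht)).1 (hm s hs t ht)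
  · intro m v i j hij hcyc hal
    obtain ⟨hev, hcol⟩ := hal
    have hm3 := hcyc.1
    have hm4 : 4 ≤ m := by
      rcases hev with ⟨k, hk⟩
      omega
    have hinj := hcyc.2.1
    have harc := hcyc.2.2.1
    by_cases hi : i = 2
    · -- `v 0`, `v 2` in `X`, `v 1` not
      have h0 : v 0 ∈ X := by rw [← hφ2, hcol 0 (by omega)]; simpa using hi
      have h2 : v 2 ∈ X := by
        rw [← hφ2, hcol 2 (by omega)]
        have : Even 2 := by decide
        simpa [this] using hi
      have h1 : v 1 ∉ X := by
        rw [← hφ2, hcol 1 (by omega)]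
        have : ¬ Even 1 := by decide
        simp only [this, if_false]
        exact fun h => hij (hi.trans h.symm)
      have := hone (v 1) h1 (v 0) h0 (v 2) h2 (Or.inr (harc 0 (by omega)))
        (Or.inl (harc 1 (by omega)))
      exact absurd (hinj (by simp; omega) (by simp; omega) this) (by decide)
    · by_cases hj : j = 2
      · have h1 : v 1 ∈ X := by
          rw [← hφ2, hcol 1 (by omega)]
          have : ¬ Even 1 := by decide
          simpa [this] using hj
        have h3 : v 3 ∈ X := by
          rw [← hφ2, hcol 3 (by omega)]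
          have : ¬ Even 3 := by decide
          simpa [this] using hj
        have h2 : v 2 ∉ X := by
          rw [← hφ2, hcol 2 (by omega)]
          have : Even 2 := by decide
          simp only [this, if_true]
          exact hi
        have := hone (v 2) h2 (v 1) h1 (v 3) h3 (Or.inr (harc 1 (by omega)))
          (Or.inl (harc 2 (by omega)))
        exact absurd (hinj (by simp; omega) (by simp; omega) this) (by decide)
      · have hX : ∀ t < m, v t ∉ X := by
          intro t ht h
          rw [← hφ2, hcol t ht] at h
          split_ifs at h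
          · exact hi h
          · exact hj h
        have hcase : ∀ k : Fin 3, k ≠ 2 → ∃ p : Bool, ∀ v, v ∉ X → (φ v = k ↔ c v = p) := by
          intro k hk
          fin_cases k
          · exact ⟨false, fun v hv => by cases h : c v <;> simp [φ, hv, h]⟩
          · exact ⟨true, fun v hv => by cases h : c v <;> simp [φ, hv, h]⟩
          · exact absurd rfl hk
        obtain ⟨p, hp⟩ := hcase i hi
        obtain ⟨q, hq⟩ := hcase j hj
        have hc' : ∀ t < m, c (v t) = if Even t then p else q := by
          intro t ht
          have := hcol t ht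
          split_ifs with he
          · rw [if_pos he] at this
            exact (hp _ (hX t ht)).1 this
          · rw [if_neg he] at this
            exact (hq _ (hX t ht)).1 this
        refine halt m v p q hcyc hX ?_ hev hc'
        rintro rfl
        have e0 : φ (v 0) = i := by rw [hcol 0 (by omega)]; simp
        have e1 : φ (v 0) = j := (hq _ (hX 0 (by omega))).2 ((hp _ (hX 0 (by omega))).1 e0)
        exact hij (e0.symm.trans e1)

end Pool.Agent.Results.MP_da50b6_co.TwoDegenerate
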